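import Pool.Agent.W657.AR.Refl

set_option autoImplicit false

/-!
# Auslander–Reiten versus (HWC): statement (A) fails, so Q1 is equivalent to the failure of (B)

(A): every one-dimensional Gorenstein local domain satisfies (HWC). (B): every Gorenstein local
domain satisfies (ARC). We show that (A) is false: there is a one-dimensional Gorenstein local
domain `R` (the completed semigroup ring over `ℚ` of a symmetric numerical semigroup) with a
finitely generated torsion-free module `M`, not free, such that `M ⊗ M*` is reflexive. Hence the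
implication (B) ⟹ (A) of the problem holds if and only if (B) fails, i.e. if and only if some
Gorenstein local domain violates the Auslander–Reiten condition.
-/

namespace Pool.Agent.Results.MP_7dc157_al.ConditionAFails

/-- Gorenstein: some regular sequence in the maximal ideal, of length the dimension, generates an
irreducible ideal. -/
def Gor (R : Type) [CommRing R] [IsLocalRing R] : Prop :=
  ∃ xs : List R, (∀ x ∈ xs, x ∈ IsLocalRing.maximalIdeal R) ∧
    RingTheory.Sequence.IsRegular R xs ∧
    ((xs.length : ℕ∞) : WithBot ℕ∞) = ringKrullDim R ∧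
    InfIrred (Ideal.span {r : R | r ∈ xs})

/-- (HWC): every finitely generated torsion-free `M` with `M ⊗ M*` reflexive is free. -/
def HWC (R : Type) [CommRing R] : Prop :=
  ∀ (M : Type) [AddCommGroup M] [Module R M] [Module.Finite R M] [NoZeroSMulDivisors R M],
    Module.IsReflexive R (TensorProduct R M (Module.Dual R M)) → Module.Free R M

/-- (ARC): every finitely generated `M` with `Ext^i(M, M) = 0 = Ext^i(M, R)` for all `i ≥ 1` is
free. -/
def ARC (R : Type) [CommRing R] : Prop :=
  ∀ [CategoryTheory.HasExt.{0} (ModuleCat.{0} R)],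
  ∀ (M : Type) [AddCommGroup M] [Module R M] [Module.Finite R M],
    (∀ i : ℕ, 1 ≤ i →
      Subsingleton (CategoryTheory.Abelian.Ext (ModuleCat.of R M) (ModuleCat.of R M) i) ∧
      Subsingleton (CategoryTheory.Abelian.Ext (ModuleCat.of R M) (ModuleCat.of R R) i)) →
    Module.Free R M

/-- (A): every one-dimensional Gorenstein local domain satisfies (HWC). -/
def A : Prop := ∀ (R : Type) [CommRing R] [IsDomain R] [IsLocalRing R] [IsNoetherianRing R],
  ringKrullDim R = 1 → Gor R → HWC R

/-- (B): every Gorenstein local domain satisfies (ARC). -/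
def B : Prop := ∀ (R : Type) [CommRing R] [IsDomain R] [IsLocalRing R] [IsNoetherianRing R],
  Gor R → ARC R

/-- (A) is false: some one-dimensional Gorenstein local domain fails (HWC). Hence the implication
of the problem, (B) implies (A), is equivalent to the failure of (B). -/
theorem result : ¬ A ∧ ((B → A) ↔ ¬ B) := by
  have h1 : ¬ HWC (Pool.Agent.W416.HW.R Pool.Agent.W416.HW.dataS) := by
    intro h
    have : NoZeroSMulDivisors (Pool.Agent.W416.HW.R Pool.Agent.W416.HW.dataS)
        (Pool.Agent.W416.HW.M Pool.Agent.W416.HW.dataS) :=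
      ⟨fun {r m} hrm => Pool.Agent.W416.HW.torsionFree Pool.Agent.W416.HW.dataS r m hrm⟩
    exact Pool.Agent.W416.HW.not_free Pool.Agent.W416.HW.dataS
      (h (Pool.Agent.W416.HW.M Pool.Agent.W416.HW.dataS)
        (Pool.Agent.W657.AR.reflexive Pool.Agent.W416.HW.dataS))
  have h2 : Gor (Pool.Agent.W416.HW.R Pool.Agent.W416.HW.dataS) :=
    Pool.Agent.W657.AR.gor Pool.Agent.W416.HW.dataS
  have h3 : ¬ A := fun hA => h1 (hA _ (Pool.Agent.W416.HW.dim_one Pool.Agent.W416.HW.dataS) h2)
  exact ⟨h3, fun hBA hB => h3 (hBA hB), fun hB hB' => absurd hB' hB⟩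

end Pool.Agent.Results.MP_7dc157_al.ConditionAFails
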